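import Mathlib

open Finset SimpleGraph

namespace Pool.Agent.Results.MP_02fb88_co.FamilyTheorem

/-- `G` (a graph on `n` vertices) contains at least `ε n²` pairwise edge-disjoint triangles
(two distinct triangles are edge-disjoint when they share at most one vertex). -/
def HasDisjointTriangles {n : ℕ} (G : SimpleGraph (Fin n)) (ε : ℝ) : Prop :=
  ∃ T : Finset (Finset (Fin n)), (∀ t ∈ T, G.IsNClique 3 t) ∧
    (∀ s ∈ T, ∀ t ∈ T, s ≠ t → (s ∩ t).card ≤ 1) ∧ ε * (n : ℝ) ^ 2 ≤ (T.card : ℝ)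

open Classical in
/-- The graph `H` is triangle-abundant: there is `C > 0` such that for every `ε ∈ (0,1)` and every
sufficiently large `n`, every `n`-vertex graph that is `ε`-far from triangle-free contains at least
`ε ^ C * n ^ |H|` copies of `H` (subgraphs isomorphic to `H`). -/
def GraphAbundant {h : ℕ} (H : SimpleGraph (Fin h)) : Prop :=
  ∃ C : ℝ, 0 < C ∧ ∀ ε : ℝ, 0 < ε → ε < 1 → ∃ n₀ : ℕ, ∀ n : ℕ, n₀ ≤ n →
    ∀ G : SimpleGraph (Fin n), G.FarFromTriangleFree ε →
      ε ^ C * (n : ℝ) ^ h ≤ (G.copyCount H : ℝ)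

/-- The family `𝓕` of graphs is triangle-abundant: there is `C > 0` such that for every `ε ∈ (0,1)`
and every sufficiently large `n`, every `n`-vertex graph containing at least `ε n²` pairwise
edge-disjoint triangles contains, for some `F ∈ 𝓕`, at least `ε ^ C * n ^ |F|` copies of `F`. -/
def FamilyAbundant (𝓕 : Set (Σ h : ℕ, SimpleGraph (Fin h))) : Prop :=
  ∃ C : ℝ, 0 < C ∧ ∀ ε : ℝ, 0 < ε → ε < 1 → ∃ n₀ : ℕ, ∀ n : ℕ, n₀ ≤ n →
    ∀ G : SimpleGraph (Fin n), HasDisjointTriangles G ε →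
      ∃ F ∈ 𝓕, ε ^ C * (n : ℝ) ^ F.1 ≤ (G.copyCount F.2 : ℝ)

open Classical in
theorem far_of_disjoint {n : ℕ} {G : SimpleGraph (Fin n)} {ε : ℝ}
    (h : HasDisjointTriangles G ε) : G.FarFromTriangleFree ε := by
  obtain ⟨T, hT, hd, hc⟩ := h
  refine farFromTriangleFree_of_disjoint_triangles T ?_ ?_ ?_
  · intro t ht
    rw [mem_cliqueFinset_iff]
    exact hT t ht
  · intro s hs t ht hst
    have := hd s hs t ht hst
    rw [← Finset.coe_inter]
    intro a ha b hb
    exact Finset.card_le_one.1 this a ha b hb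
  · simpa using hc

def Pack {V : Type*} [DecidableEq V] (G : SimpleGraph V) (T : Finset (Finset V)) : Prop :=
  (∀ t ∈ T, G.IsNClique 3 t) ∧ (∀ s ∈ T, ∀ t ∈ T, s ≠ t → (s ∩ t).card ≤ 1)

open Classical in
theorem disjoint_of_far {n : ℕ} {G : SimpleGraph (Fin n)} {ε : ℝ}
    (h : G.FarFromTriangleFree ε) : HasDisjointTriangles G (ε / 3) := by
  -- choose a maximal packing
  have hne : ((Finset.univ : Finset (Finset (Finset (Fin n)))).filter
      (fun T => Pack G T)).Nonempty := by
    refine ⟨∅, ?_⟩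
    rw [Finset.mem_filter]
    refine ⟨Finset.mem_univ _, ?_, ?_⟩ <;> simp
  obtain ⟨T, hT, hmax⟩ := Finset.exists_max_image _ (fun T => T.card) hne
  simp only [Finset.mem_filter, Finset.mem_univ, true_and] at hT hmax
  refine ⟨T, hT.1, hT.2, ?_⟩
  -- the edges to delete
  let S : Finset (Sym2 (Fin n)) := T.biUnion (fun t => t.offDiag.image Sym2.mk.uncurry)
  have hS : S ⊆ G.edgeFinset := by
    intro e he
    simp only [S, Finset.mem_biUnion, Finset.mem_image, Finset.mem_offDiag] at he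
    obtain ⟨t, ht, ⟨a, b⟩, ⟨ha, hb, hab⟩, rfl⟩ := he
    rw [SimpleGraph.mem_edgeFinset]
    change s(a, b) ∈ G.edgeSet
    rw [SimpleGraph.mem_edgeSet]
    exact (hT.1 t ht).1 ha hb hab
  have hcf : (G.deleteEdges (S : Set (Sym2 (Fin n)))).CliqueFree 3 := by
    intro t ht
    have htG : G.IsNClique 3 t := ht.mono (SimpleGraph.deleteEdges_le _)
    have hdisj : ∀ s ∈ T, (s ∩ t).card ≤ 1 := by
      intro s hs
      by_contra hcon
      push Not at hcon
      obtain ⟨a, ha, b, hb, hab⟩ := Finset.one_lt_card.1 hcon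
      have hadj := ht.1 (Finset.mem_coe.2 (Finset.mem_inter.1 ha).2)
        (Finset.mem_coe.2 (Finset.mem_inter.1 hb).2) hab
      rw [SimpleGraph.deleteEdges_adj] at hadj
      apply hadj.2
      rw [Finset.mem_coe]
      simp only [S, Finset.mem_biUnion, Finset.mem_image, Finset.mem_offDiag]
      exact ⟨s, hs, (a, b), ⟨(Finset.mem_inter.1 ha).1, (Finset.mem_inter.1 hb).1, hab⟩, rfl⟩
    have htT : t ∉ T := by
      intro htT
      have := hdisj t htT
      rw [Finset.inter_self, htG.2] at this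
      omega
    have hP : Pack G (insert t T) := by
      refine ⟨?_, ?_⟩
      · intro s hs
        rcases Finset.mem_insert.1 hs with rfl | hs
        · exact htG
        · exact hT.1 s hs
      · intro s hs r hr hsr
        rcases Finset.mem_insert.1 hs with rfl | hs'
        · rcases Finset.mem_insert.1 hr with rfl | hr'
          · exact absurd rfl hsr
          · rw [Finset.inter_comm]; exact hdisj r hr'
        · rcases Finset.mem_insert.1 hr with rfl | hr'
          · exact hdisj s hs'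
          · exact hT.2 s hs' r hr' hsr
    have := hmax _ hP
    rw [Finset.card_insert_of_notMem htT] at this
    omega
  have h1 := h hS hcf
  have h2 : S.card ≤ 3 * T.card := by
    refine (Finset.card_biUnion_le).trans ?_
    rw [mul_comm]
    refine (Finset.sum_le_card_nsmul _ _ 3 ?_).trans (by simp)
    intro t ht
    rw [Sym2.card_image_offDiag, (hT.1 t ht).2]
    decide
  have h3 : (S.card : ℝ) ≤ 3 * T.card := by exact_mod_cast h2
  simp only [Fintype.card_fin, Nat.cast_pow] at h1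
  linarith

/-! homomorphism counts -/

open Classical in
noncomputable def homs {h : ℕ} {V : Type*} [Fintype V] (F : SimpleGraph (Fin h))
    (G : SimpleGraph V) : Finset (Fin h → V) :=
  Finset.univ.filter (fun f => ∀ a b, F.Adj a b → G.Adj (f a) (f b))

theorem mem_homs {h : ℕ} {V : Type*} [Fintype V] {F : SimpleGraph (Fin h)}
    {G : SimpleGraph V} {f : Fin h → V} :
    f ∈ homs F G ↔ ∀ a b, F.Adj a b → G.Adj (f a) (f b) := by
  classical
  simp [homs]

theorem labelled_eq {h : ℕ} {V : Type*} [Fintype V] (F : SimpleGraph (Fin h))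
    (G : SimpleGraph V) : G.labelledCopyCount F = Nat.card (Copy F G) := by
  classical
  unfold labelledCopyCount
  simp only [← Nat.card_eq_fintype_card]

/-- the injective homomorphisms -/
noncomputable def injHoms {h : ℕ} {V : Type*} [Fintype V] (F : SimpleGraph (Fin h))
    (G : SimpleGraph V) : Finset (Fin h → V) := by
  classical exact (homs F G).filter (fun f => Function.Injective f)

theorem mem_injHoms {h : ℕ} {V : Type*} [Fintype V] {F : SimpleGraph (Fin h)}
    {G : SimpleGraph V} {f : Fin h → V} :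
    f ∈ injHoms F G ↔ (∀ a b, F.Adj a b → G.Adj (f a) (f b)) ∧ Function.Injective f := by
  classical
  simp [injHoms, mem_homs]

def copyEquiv {h : ℕ} {V : Type*} [Fintype V] (F : SimpleGraph (Fin h))
    (G : SimpleGraph V) : Copy F G ≃ {f : Fin h → V // f ∈ injHoms F G} where
  toFun f := ⟨f, mem_injHoms.2 ⟨fun _ _ hab => f.toHom.map_adj hab, f.injective⟩⟩
  invFun f := ⟨⟨f.1, fun {a b} hab => (mem_injHoms.1 f.2).1 a b hab⟩, (mem_injHoms.1 f.2).2⟩
  left_inv f := by
    apply DFunLike.coe_injective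
    rfl
  right_inv f := by
    apply Subtype.ext
    rfl

theorem labelled_eq_card {h : ℕ} {V : Type*} [Fintype V] (F : SimpleGraph (Fin h))
    (G : SimpleGraph V) : G.labelledCopyCount F = (injHoms F G).card := by
  rw [labelled_eq, Nat.card_congr (copyEquiv F G), Nat.card_eq_fintype_card, Fintype.card_coe]

theorem labelled_le_homs {h : ℕ} {V : Type*} [Fintype V] (F : SimpleGraph (Fin h))
    (G : SimpleGraph V) : G.labelledCopyCount F ≤ (homs F G).card := by
  classical
  rw [labelled_eq_card]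
  exact Finset.card_le_card (Finset.filter_subset _ _)

theorem copy_le_homs {h : ℕ} {V : Type*} [Fintype V] (F : SimpleGraph (Fin h))
    (G : SimpleGraph V) : G.copyCount F ≤ (homs F G).card :=
  (copyCount_le_labelledCopyCount).trans (labelled_le_homs F G)

theorem labelled_le_copy {h : ℕ} {V : Type*} [Fintype V] (F : SimpleGraph (Fin h))
    (G : SimpleGraph V) : G.labelledCopyCount F ≤ h ^ h * G.copyCount F := by
  classical
  rw [copyCount_eq_card_image_copyToSubgraph]
  have : G.labelledCopyCount F = (Finset.univ : Finset (F.Copy G)).card := by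
    rw [labelled_eq, Finset.card_univ, Nat.card_eq_fintype_card]
  rw [this]
  refine Finset.card_le_mul_card_image _ (h ^ h) ?_
  intro A hA
  obtain ⟨f₀, -, hf₀⟩ := Finset.mem_image.1 hA
  have hrange : ∀ f : Copy F G, f.toSubgraph = A → ∀ i, ∃ j, f₀ j = f i := by
    intro f hf i
    have h1 : f i ∈ A.verts := by
      rw [← hf]
      simp [Copy.toSubgraph]
    rw [← hf₀] at h1
    simpa [Copy.toSubgraph] using h1
  have hcard : (Finset.univ : Finset (Fin h → Fin h)).card = h ^ h := by simp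
  rw [← hcard]
  refine Finset.card_le_card_of_injOn
    (fun f : Copy F G => if hf : f.toSubgraph = A then fun i => (hrange f hf i).choose else id)
    (by intro _ _; simp) ?_
  intro f hf g hg hfg
  have hf' : f.toSubgraph = A := by simpa using hf
  have hg' : g.toSubgraph = A := by simpa using hg
  simp only [hf', hg', dif_pos] at hfg
  apply DFunLike.coe_injective
  funext i
  have e1 := (hrange f hf' i).choose_spec
  have e2 := (hrange g hg' i).choose_spec
  have e3 := congrFun hfg i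
  rw [← e1, ← e2, e3]

theorem homs_le_labelled {h n : ℕ} (F : SimpleGraph (Fin h))
    (G : SimpleGraph (Fin n)) :
    (homs F G).card + n.descFactorial h ≤ G.labelledCopyCount F + n ^ h := by
  classical
  rw [labelled_eq_card]
  have h1 : (homs F G).card = ((homs F G).filter (fun f => Function.Injective f)).card +
      ((homs F G).filter (fun f => ¬ Function.Injective f)).card :=
    (Finset.card_filter_add_card_filter_not _).symm
  have h2 : ((homs F G).filter (fun f => ¬ Function.Injective f)).card ≤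
      ((Finset.univ : Finset (Fin h → Fin n)).filter (fun f => ¬ Function.Injective f)).card :=
    Finset.card_le_card (Finset.filter_subset_filter _ (Finset.subset_univ _))
  have h3 : ((Finset.univ : Finset (Fin h → Fin n)).filter (fun f => Function.Injective f)).card +
      ((Finset.univ : Finset (Fin h → Fin n)).filter (fun f => ¬ Function.Injective f)).card =
      n ^ h := by
    rw [Finset.card_filter_add_card_filter_not]
    simp
  have h4 : ((Finset.univ : Finset (Fin h → Fin n)).filter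
      (fun f => Function.Injective f)).card = n.descFactorial h := by
    have := Fintype.card_embedding_eq (α := Fin h) (β := Fin n)
    simp only [Fintype.card_fin] at this
    rw [← this, ← Fintype.card_subtype]
    exact Fintype.card_congr (Equiv.subtypeInjectiveEquivEmbedding _ _)
  have h5 : (injHoms F G).card = ((homs F G).filter (fun f => Function.Injective f)).card := by
    simp only [injHoms]
    congr
  omega

/-- copies few implies homs few (large n) -/
theorem homs_le_of_copy {h : ℕ} (F : SimpleGraph (Fin h)) {n : ℕ} (hn : h ≤ n)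
    (G : SimpleGraph (Fin n)) :
    ((homs F G).card : ℝ) ≤ (h : ℝ) ^ h * G.copyCount F + h ^ 2 / n * (n : ℝ) ^ h := by
  rcases Nat.eq_zero_or_pos n with rfl | hn0
  · have : h = 0 := by omega
    subst this
    have h1 := homs_le_labelled F G
    have h2 := labelled_le_copy F G
    simp at h1 h2 ⊢
    exact_mod_cast h1
  have h1 := homs_le_labelled F G
  have h2 := labelled_le_copy F G
  have h1' : ((homs F G).card : ℝ) + n.descFactorial h ≤ G.labelledCopyCount F + (n:ℝ) ^ h := by
    exact_mod_cast h1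
  have h2' : (G.labelledCopyCount F : ℝ) ≤ (h:ℝ) ^ h * G.copyCount F := by exact_mod_cast h2
  have h3 : (n:ℝ) ^ h - h ^ 2 / n * (n : ℝ) ^ h ≤ n.descFactorial h := by
    have e1 := Nat.pow_sub_le_descFactorial n h
    have e2 : (((n + 1 - h : ℕ) : ℝ)) ^ h ≤ n.descFactorial h := by exact_mod_cast e1
    refine le_trans ?_ e2
    have hnpos : (0:ℝ) < n := by exact_mod_cast hn0
    have e3 : ((n + 1 - h : ℕ) : ℝ) = n * (1 + (-((h:ℝ) - 1) / n)) := by
      rw [Nat.cast_sub (by omega)]
      push_cast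
      field_simp
      ring
    rw [e3, mul_pow]
    have hh : (h:ℝ) ≤ n := by exact_mod_cast hn
    have e4 : (1:ℝ) + (h:ℝ) * (-((h:ℝ) - 1) / n) ≤ (1 + (-((h:ℝ) - 1) / n)) ^ h := by
      apply one_add_mul_le_pow
      rw [le_div_iff₀ hnpos]
      linarith
    have e5 : (1:ℝ) - h ^ 2 / n ≤ 1 + (h:ℝ) * (-((h:ℝ) - 1) / n) := by
      have : (0:ℝ) ≤ h / n := by positivity
      have e6 : (1:ℝ) + (h:ℝ) * (-((h:ℝ) - 1) / n) = 1 - h ^ 2 / n + h / n := by
        field_simp
        ring
      linarith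
    have e7 : (0:ℝ) < (n:ℝ) ^ h := by positivity
    nlinarith [e4, e5, e7]
  linarith

/-! ### The categorical product -/

/-- categorical product of two graphs, on `Fin (m * n)` -/
def tens {m n : ℕ} (G : SimpleGraph (Fin m)) (H : SimpleGraph (Fin n)) :
    SimpleGraph (Fin (m * n)) where
  Adj x y := G.Adj (finProdFinEquiv.symm x).1 (finProdFinEquiv.symm y).1 ∧
    H.Adj (finProdFinEquiv.symm x).2 (finProdFinEquiv.symm y).2
  symm := ⟨fun _ _ h => ⟨h.1.symm, h.2.symm⟩⟩
  loopless := ⟨fun _ h => (G.irrefl h.1)⟩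

theorem homs_tens {h m n : ℕ} (F : SimpleGraph (Fin h)) (G : SimpleGraph (Fin m))
    (H : SimpleGraph (Fin n)) :
    (homs F (tens G H)).card ≤ (homs F G).card * (homs F H).card := by
  classical
  rw [← Finset.card_product]
  refine Finset.card_le_card_of_injOn
    (fun f => ((fun i => (finProdFinEquiv.symm (f i)).1), (fun i => (finProdFinEquiv.symm (f i)).2)))
    ?_ ?_
  · intro f hf
    rw [Finset.mem_coe, mem_homs] at hf
    rw [Finset.mem_coe, Finset.mem_product, mem_homs, mem_homs]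
    exact ⟨fun a b hab => (hf a b hab).1, fun a b hab => (hf a b hab).2⟩
  · intro f _ g _ hfg
    funext i
    have h1 := congrFun (congrArg Prod.fst hfg) i
    have h2 := congrFun (congrArg Prod.snd hfg) i
    apply finProdFinEquiv.symm.injective
    exact Prod.ext h1 h2

theorem exists_enum {n : ℕ} (t : Finset (Fin n)) (ht : t.card = 3) :
    ∃ e : Fin 3 → Fin n, Function.Injective e ∧ Finset.univ.image e = t := by
  refine ⟨fun i => t.orderEmbOfFin ht i, (t.orderEmbOfFin ht).injective, ?_⟩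
  ext x
  simp only [Finset.mem_image, Finset.mem_univ, true_and]
  have := Set.ext_iff.1 (Finset.range_orderEmbOfFin t ht) x
  rw [Set.mem_range, Finset.mem_coe] at this
  exact this

theorem disjoint_tens {m n : ℕ} {G : SimpleGraph (Fin m)} {H : SimpleGraph (Fin n)}
    {ε δ : ℝ} (hδ : 0 ≤ δ)
    (hG : HasDisjointTriangles G ε) (hH : HasDisjointTriangles H δ) :
    HasDisjointTriangles (tens G H) (ε * δ) := by
  classical
  rcases Nat.eq_zero_or_pos m with rfl | hm
  · exact ⟨∅, by simp, by simp, by simp⟩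
  rcases Nat.eq_zero_or_pos n with rfl | hn
  · exact ⟨∅, by simp, by simp, by simp⟩
  have : Nonempty (Fin m) := ⟨⟨0, hm⟩⟩
  have : Nonempty (Fin n) := ⟨⟨0, hn⟩⟩
  obtain ⟨T, hT, hTd, hTc⟩ := hG
  obtain ⟨S, hS, hSd, hSc⟩ := hH
  choose! e he using fun t => exists_enum (n := m) t
  choose! f hf using fun t => exists_enum (n := n) t
  -- the product triangle
  let P : Finset (Fin m) × Finset (Fin n) → Finset (Fin (m * n)) := fun p =>
    Finset.univ.image (fun i : Fin 3 => finProdFinEquiv (e p.1 i, f p.2 i))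
  have hmem : ∀ t : Finset (Fin m), t ∈ T → ∀ i, e t i ∈ t := by
    intro t ht i
    exact (Finset.ext_iff.1 (he t (hT _ ht).2).2 (e t i)).1
      (Finset.mem_image_of_mem _ (Finset.mem_univ _))
  have hmem' : ∀ t : Finset (Fin n), t ∈ S → ∀ i, f t i ∈ t := by
    intro t ht i
    exact (Finset.ext_iff.1 (hf t (hS _ ht).2).2 (f t i)).1
      (Finset.mem_image_of_mem _ (Finset.mem_univ _))
  have hinj : ∀ p ∈ T ×ˢ S, Function.Injective
      (fun i : Fin 3 => finProdFinEquiv (e p.1 i, f p.2 i)) := by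
    intro p hp i j hij
    rw [Finset.mem_product] at hp
    have := finProdFinEquiv.injective hij
    exact (he p.1 (hT _ hp.1).2).1 (congrArg Prod.fst this)
  have hcard : ∀ p ∈ T ×ˢ S, (P p).card = 3 := by
    intro p hp
    simp only [P]
    rw [Finset.card_image_of_injective _ (hinj p hp)]
    simp
  -- if two product triangles share two vertices then they coincide
  have key : ∀ p ∈ T ×ˢ S, ∀ q ∈ T ×ˢ S, 1 < (P p ∩ P q).card → p = q := by
    intro p hp q hq hlt
    have hp' := Finset.mem_product.1 hp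
    have hq' := Finset.mem_product.1 hq
    obtain ⟨u, hu, v, hv, huv⟩ := Finset.one_lt_card.1 hlt
    simp only [P, Finset.mem_inter, Finset.mem_image, Finset.mem_univ, true_and] at hu hv
    obtain ⟨⟨i, hi⟩, ⟨i', hi'⟩⟩ := hu
    obtain ⟨⟨j, hj⟩, ⟨j', hj'⟩⟩ := hv
    have hij : i ≠ j := by
      rintro rfl
      exact huv (hi.symm.trans hj)
    have ei : (e p.1 i, f p.2 i) = (e q.1 i', f q.2 i') :=
      finProdFinEquiv.injective (hi.trans hi'.symm)
    have ej : (e p.1 j, f p.2 j) = (e q.1 j', f q.2 j') :=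
      finProdFinEquiv.injective (hj.trans hj'.symm)
    apply Prod.ext
    · by_contra hne
      have h1 := hTd p.1 hp'.1 q.1 hq'.1 hne
      have h2 : 1 < (p.1 ∩ q.1).card := by
        refine Finset.one_lt_card.2 ⟨e p.1 i, ?_, e p.1 j, ?_, ?_⟩
        · refine Finset.mem_inter.2 ⟨hmem _ hp'.1 _, ?_⟩
          rw [show e p.1 i = e q.1 i' from congrArg Prod.fst ei]
          exact hmem _ hq'.1 _
        · refine Finset.mem_inter.2 ⟨hmem _ hp'.1 _, ?_⟩
          rw [show e p.1 j = e q.1 j' from congrArg Prod.fst ej]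
          exact hmem _ hq'.1 _
        · exact fun h => hij ((he p.1 (hT _ hp'.1).2).1 h)
      omega
    · by_contra hne
      have h1 := hSd p.2 hp'.2 q.2 hq'.2 hne
      have h2 : 1 < (p.2 ∩ q.2).card := by
        refine Finset.one_lt_card.2 ⟨f p.2 i, ?_, f p.2 j, ?_, ?_⟩
        · refine Finset.mem_inter.2 ⟨hmem' _ hp'.2 _, ?_⟩
          rw [show f p.2 i = f q.2 i' from congrArg Prod.snd ei]
          exact hmem' _ hq'.2 _
        · refine Finset.mem_inter.2 ⟨hmem' _ hp'.2 _, ?_⟩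
          rw [show f p.2 j = f q.2 j' from congrArg Prod.snd ej]
          exact hmem' _ hq'.2 _
        · exact fun h => hij ((hf p.2 (hS _ hp'.2).2).1 h)
      omega
  have hPinj : Set.InjOn P (T ×ˢ S : Finset _) := by
    intro p hp q hq hpq
    apply key p hp q hq
    rw [hpq, Finset.inter_self, hcard q hq]
    norm_num
  refine ⟨(T ×ˢ S).image P, ?_, ?_, ?_⟩
  · intro t ht
    obtain ⟨p, hp, rfl⟩ := Finset.mem_image.1 ht
    have hp' := Finset.mem_product.1 hp
    refine ⟨?_, hcard p hp⟩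
    intro u hu v hv huv
    simp only [P, Finset.coe_image, Finset.coe_univ, Set.image_univ, Set.mem_range] at hu hv
    obtain ⟨i, rfl⟩ := hu
    obtain ⟨j, rfl⟩ := hv
    have hij : i ≠ j := fun h => huv (by rw [h])
    simp only [tens, Equiv.symm_apply_apply]
    constructor
    · have h1 := (hT _ hp'.1).1
      exact h1 (hmem _ hp'.1 _) (hmem _ hp'.1 _) (fun h => hij ((he p.1 (hT _ hp'.1).2).1 h))
    · have h1 := (hS _ hp'.2).1
      exact h1 (hmem' _ hp'.2 _) (hmem' _ hp'.2 _) (fun h => hij ((hf p.2 (hS _ hp'.2).2).1 h))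
  · intro s hs t ht hst
    obtain ⟨p, hp, rfl⟩ := Finset.mem_image.1 hs
    obtain ⟨q, hq, rfl⟩ := Finset.mem_image.1 ht
    by_contra hcon
    push Not at hcon
    exact hst (by rw [key p hp q hq hcon])
  · rw [Finset.card_image_of_injOn hPinj, Finset.card_product]
    push_cast
    have h1 : (0:ℝ) ≤ δ * (n:ℝ) ^ 2 := by positivity
    have h2 : (0:ℝ) ≤ (T.card : ℝ) := by positivity
    calc ε * δ * ((m:ℝ) * n) ^ 2 = (ε * (m:ℝ) ^ 2) * (δ * (n:ℝ) ^ 2) := by ring
      _ ≤ T.card * (δ * (n:ℝ) ^ 2) := by gcongr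
      _ ≤ T.card * S.card := by gcongr


/-! ### Good families of graphs -/

/-- all finite graphs, up to isomorphism -/
abbrev Gr := Σ h : ℕ, SimpleGraph (Fin h)

def Ex (ε : ℝ) (φ : Gr → ℝ) (n : ℕ) (G : SimpleGraph (Fin n)) : Prop :=
  HasDisjointTriangles G ε ∧ ∀ F : Gr, ((homs F.2 G).card : ℝ) ≤ φ F * (n : ℝ) ^ F.1

def Good (ε : ℝ) (φ : Gr → ℝ) : Prop :=
  ∀ n₀ : ℕ, ∃ n, n₀ ≤ n ∧ ∃ G : SimpleGraph (Fin n), Ex ε φ n G

theorem Ex.product {ε δ : ℝ} {φ ψ : Gr → ℝ} {m n : ℕ} {G : SimpleGraph (Fin m)}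
    {H : SimpleGraph (Fin n)} (hδ : 0 ≤ δ) (hG : Ex ε φ m G) (hH : Ex δ ψ n H) :
    Ex (ε * δ) (fun F => φ F * ψ F) (m * n) (tens G H) := by
  refine ⟨disjoint_tens hδ hG.1 hH.1, fun F => ?_⟩
  have h1 : ((homs F.2 (tens G H)).card : ℝ) ≤ (homs F.2 G).card * (homs F.2 H).card := by
    exact_mod_cast homs_tens F.2 G H
  refine h1.trans ?_
  have h2 := hG.2 F
  have h3 := hH.2 F
  have h4 : (0:ℝ) ≤ (homs F.2 G).card := by positivity
  have h5 : (0:ℝ) ≤ (homs F.2 H).card := by positivity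
  calc ((homs F.2 G).card : ℝ) * (homs F.2 H).card
      ≤ (φ F * (m:ℝ) ^ F.1) * (ψ F * (n:ℝ) ^ F.1) :=
        mul_le_mul h2 h3 h5 (h4.trans h2)
    _ = φ F * ψ F * ((m * n : ℕ) : ℝ) ^ F.1 := by push_cast; ring

theorem Good.mul {ε δ : ℝ} {φ ψ : Gr → ℝ} (hδ : 0 ≤ δ) (h1 : Good ε φ)
    (h2 : ∃ n, 1 ≤ n ∧ ∃ G : SimpleGraph (Fin n), Ex δ ψ n G) :
    Good (ε * δ) (fun F => φ F * ψ F) := by
  obtain ⟨n, hn, H, hH⟩ := h2
  intro n₀
  obtain ⟨m, hm, G, hG⟩ := h1 n₀
  exact ⟨m * n, by nlinarith, _, hG.product hδ hH⟩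

theorem Good.ex {ε : ℝ} {φ : Gr → ℝ} (h : Good ε φ) :
    ∃ n, 1 ≤ n ∧ ∃ G : SimpleGraph (Fin n), Ex ε φ n G := h 1

theorem Good.pow {ε : ℝ} {φ : Gr → ℝ} (hε : 0 ≤ ε) (h : Good ε φ) (t : ℕ) (ht : 1 ≤ t) :
    Good (ε ^ t) (fun F => φ F ^ t) := by
  induction t, ht using Nat.le_induction with
  | base => simpa using h
  | succ t _ ih =>
    have := Good.mul hε ih h.ex
    simpa only [pow_succ] using this

theorem Good.mono {ε : ℝ} {φ ψ : Gr → ℝ} (h : Good ε φ) (hφ : ∀ F, φ F ≤ ψ F) :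
    Good ε ψ := by
  intro n₀
  obtain ⟨n, hn, G, hG⟩ := h n₀
  refine ⟨n, hn, G, hG.1, fun F => (hG.2 F).trans ?_⟩
  have := hφ F
  gcongr

theorem homs_le {h n : ℕ} (F : SimpleGraph (Fin h)) (G : SimpleGraph (Fin n)) :
    (homs F G).card ≤ n ^ h := by
  classical
  refine (Finset.card_le_univ _).trans ?_
  simp

theorem good_base : Good (1 / 9) (fun _ => 1) := by
  classical
  intro n₀
  refine ⟨3 * (n₀ + 1), by omega, ⊤, ?_, ?_⟩
  · let g : Fin (n₀ + 1) × Fin (n₀ + 1) → Fin 3 → Fin (n₀ + 1) := fun p a =>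
      if a = 0 then p.1 else if a = 1 then p.2 else p.1 + p.2
    have hg : ∀ p q a b, a ≠ b → g p a = g q a → g p b = g q b → p = q := by
      intro p q a b hab ha hb
      fin_cases a <;> fin_cases b <;> simp [g] at hab ha hb ⊢ <;>
        (apply Prod.ext <;> simp_all)
    let P : Fin (n₀ + 1) × Fin (n₀ + 1) → Finset (Fin (3 * (n₀ + 1))) := fun p =>
      Finset.univ.image (fun a : Fin 3 => finProdFinEquiv (a, g p a))
    have hcard : ∀ p, (P p).card = 3 := by
      intro p
      simp only [P]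
      rw [Finset.card_image_of_injective]
      · simp
      · intro a b hab
        exact congrArg Prod.fst (finProdFinEquiv.injective hab)
    have key : ∀ p q, 1 < (P p ∩ P q).card → p = q := by
      intro p q hlt
      obtain ⟨u, hu, v, hv, huv⟩ := Finset.one_lt_card.1 hlt
      simp only [P, Finset.mem_inter, Finset.mem_image, Finset.mem_univ, true_and] at hu hv
      obtain ⟨⟨i, hi⟩, ⟨i', hi'⟩⟩ := hu
      obtain ⟨⟨j, hj⟩, ⟨j', hj'⟩⟩ := hv
      have ei : (i, g p i) = (i', g q i') := finProdFinEquiv.injective (hi.trans hi'.symm)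
      have ej : (j, g p j) = (j', g q j') := finProdFinEquiv.injective (hj.trans hj'.symm)
      obtain rfl : i = i' := congrArg Prod.fst ei
      obtain rfl : j = j' := congrArg Prod.fst ej
      refine hg p q i j ?_ (congrArg Prod.snd ei) (congrArg Prod.snd ej)
      rintro rfl
      exact huv (hi.symm.trans hj)
    have hinj : Function.Injective P := by
      intro p q hpq
      apply key
      rw [hpq, Finset.inter_self, hcard]
      norm_num
    refine ⟨Finset.univ.image P, ?_, ?_, ?_⟩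
    · intro t ht
      obtain ⟨p, -, rfl⟩ := Finset.mem_image.1 ht
      exact ⟨fun u _ v _ huv => huv, hcard p⟩
    · intro s hs t ht hst
      obtain ⟨p, -, rfl⟩ := Finset.mem_image.1 hs
      obtain ⟨q, -, rfl⟩ := Finset.mem_image.1 ht
      by_contra hcon
      push Not at hcon
      exact hst (by rw [key p q hcon])
    · rw [Finset.card_image_of_injective _ hinj]
      simp only [Finset.card_univ, Fintype.card_prod, Fintype.card_fin]
      push_cast
      apply le_of_eq
      ring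
  · intro F
    have := homs_le F.2 (⊤ : SimpleGraph (Fin (3 * (n₀ + 1))))
    rw [one_mul]
    exact_mod_cast this

theorem exists_exponents {x y : ℝ} (hx : 0 < x) (hx1 : x < 1) (hy : 0 < y) (hy1 : y < 1) :
    ∃ a b : ℕ, 1 ≤ a ∧ 1 ≤ b ∧ (x ^ a) ^ 2 ≤ y ^ b ∧ (y ^ b) ^ 2 ≤ x ^ a := by
  have aux : ∀ x y : ℝ, 0 < x → x < 1 → 0 < y → y ≤ x →
      ∃ a : ℕ, 1 ≤ a ∧ (x ^ a) ^ 2 ≤ y ∧ y ^ 2 ≤ x ^ a := by
    intro x y hx hx1 hy hyx
    have hex : ∃ a : ℕ, x ^ a ≤ y := by
      obtain ⟨a, ha⟩ := exists_pow_lt_of_lt_one hy hx1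
      exact ⟨a, ha.le⟩
    classical
    let a := Nat.find hex
    have ha : x ^ a ≤ y := Nat.find_spec hex
    have ha1 : 1 ≤ a := by
      by_contra hcon
      have h0 : a = 0 := by omega
      rw [h0, pow_zero] at ha
      linarith
    have hprev : ¬ x ^ (a - 1) ≤ y := Nat.find_min hex (by omega)
    push Not at hprev
    have hxa : 0 < x ^ a := by positivity
    refine ⟨a, ha1, ?_, ?_⟩
    · have : x ^ a ≤ 1 := pow_le_one₀ hx.le hx1.le
      nlinarith
    · have h1 : x ^ a = x ^ (a - 1) * x := by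
        rw [← pow_succ]
        congr 1
        omega
      rw [h1]
      nlinarith
  rcases le_total y x with h | h
  · obtain ⟨a, ha, h1, h2⟩ := aux x y hx hx1 hy h
    exact ⟨a, 1, ha, le_rfl, by simpa using h1, by simpa using h2⟩
  · obtain ⟨a, ha, h1, h2⟩ := aux y x hy hy1 hx h
    exact ⟨1, a, le_rfl, ha, by simpa using h2, by simpa using h1⟩

open Classical in
theorem good_single (F : Gr) (hF : ¬ GraphAbundant F.2) (K : ℕ) :
    ∃ ε : ℝ, 0 < ε ∧ ε ≤ 1 / 3 ∧ Good ε (fun F' => if F' = F then ε ^ K else 1) := by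
  obtain ⟨h, F⟩ := F
  simp only at hF ⊢
  set M : ℕ := 2 * h ^ h * 3 ^ K with hM
  have hMpos : 0 < M := by
    have : 0 < h ^ h := by
      rcases Nat.eq_zero_or_pos h with rfl | hh
      · simp
      · positivity
    positivity
  have hM2 : (M : ℝ) ≤ 2 ^ M := by exact_mod_cast (Nat.lt_two_pow_self).le
  have hMr : (M : ℝ) = 2 * (h:ℝ) ^ h * 3 ^ K := by rw [hM]; push_cast; ring
  simp only [GraphAbundant, not_exists, not_and] at hF
  have := hF (((K + M : ℕ) : ℝ)) (by exact_mod_cast (by omega : 0 < K + M))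
  push Not at this
  obtain ⟨δ, hδ, hδ1, hbad⟩ := this
  refine ⟨δ / 3, by positivity, by linarith, ?_⟩
  intro n₀
  set ε := δ / 3 with hε
  have hεpos : 0 < ε := by positivity
  obtain ⟨n₁, hn₁⟩ := exists_nat_gt (2 * (h:ℝ) ^ 2 / ε ^ K)
  obtain ⟨n, hn, G, hfar, hcopy⟩ := hbad (n₀ + n₁ + h + 1)
  have hn0 : 0 < n := by omega
  have : Nonempty (Fin n) := ⟨⟨0, hn0⟩⟩
  have hδh : δ < 2⁻¹ := hfar.lt_half
  refine ⟨n, by omega, G, disjoint_of_far hfar, ?_⟩
  intro F'
  beta_reduce
  split_ifs with hF'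
  · subst hF'
    simp only
    have h1 := homs_le_of_copy F (by omega : h ≤ n) G
    refine h1.trans ?_
    have hnpos : (0:ℝ) < n := by exact_mod_cast hn0
    have h2 : (h:ℝ) ^ h * G.copyCount F ≤ ε ^ K / 2 * (n:ℝ) ^ h := by
      have e1 : (G.copyCount F : ℝ) ≤ δ ^ (K + M) * (n:ℝ) ^ h := by
        have := hcopy.le
        rwa [Real.rpow_natCast] at this
      have e2 : δ ^ M ≤ (1 / 2) ^ M := pow_le_pow_left₀ hδ.le (by linarith) M
      have e3 : (h:ℝ) ^ h * δ ^ (K + M) ≤ ε ^ K / 2 := by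
        rw [pow_add, hε, div_pow]
        have e4 : (M:ℝ) * (1 / 2) ^ M ≤ 1 := by
          rw [one_div, inv_pow, ← div_eq_mul_inv, div_le_one (by positivity)]
          exact hM2
        have e5 : (2 * (h:ℝ) ^ h * 3 ^ K) * δ ^ M ≤ 1 := by
          rw [← hMr]
          refine le_trans ?_ e4
          gcongr
        have e6 : (0:ℝ) < 3 ^ K := by positivity
        have e7 : (0:ℝ) < δ ^ K := by positivity
        rw [div_div, le_div_iff₀ (by positivity)]
        calc (h:ℝ) ^ h * (δ ^ K * δ ^ M) * (3 ^ K * 2)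
            = δ ^ K * ((2 * (h:ℝ) ^ h * 3 ^ K) * δ ^ M) := by ring
          _ ≤ δ ^ K * 1 := by gcongr
          _ = δ ^ K := mul_one _
      calc (h:ℝ) ^ h * G.copyCount F ≤ (h:ℝ) ^ h * (δ ^ (K + M) * (n:ℝ) ^ h) := by gcongr
        _ = ((h:ℝ) ^ h * δ ^ (K + M)) * (n:ℝ) ^ h := by ring
        _ ≤ ε ^ K / 2 * (n:ℝ) ^ h := by gcongr
    have h3 : (h:ℝ) ^ 2 / n ≤ ε ^ K / 2 := by
      have e1 : (n₁ : ℝ) ≤ n := by exact_mod_cast (by omega : n₁ ≤ n)
      have e2 : 2 * (h:ℝ) ^ 2 / ε ^ K < n := hn₁.trans_le e1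
      rw [div_lt_iff₀ (by positivity)] at e2
      rw [div_le_iff₀ hnpos]
      linarith
    have h4 : (h:ℝ) ^ 2 / n * (n:ℝ) ^ h ≤ ε ^ K / 2 * (n:ℝ) ^ h := by gcongr
    linarith
  · have := homs_le F'.2 G
    rw [one_mul]
    exact_mod_cast this

open Classical in
theorem good_finset (S : Finset Gr) (hS : ∀ F ∈ S, ¬ GraphAbundant F.2) (K : ℕ) :
    ∃ ε : ℝ, 0 < ε ∧ ε ≤ 1 / 3 ∧ Good ε (fun F' => if F' ∈ S then ε ^ K else 1) := by
  induction S using Finset.induction_on generalizing K with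
  | empty =>
    refine ⟨1 / 9, by norm_num, by norm_num, ?_⟩
    simpa using good_base
  | insert F S hFS ih =>
    obtain ⟨x, hx, hx3, hgx⟩ := ih (fun F hF => hS F (Finset.mem_insert_of_mem hF)) (3 * K)
    obtain ⟨y, hy, hy3, hgy⟩ := good_single F (hS F (Finset.mem_insert_self _ _)) (3 * K)
    obtain ⟨a, b, ha, hb, h1, h2⟩ := exists_exponents hx (by linarith) hy (by linarith)
    have hxa : 0 < x ^ a := by positivity
    have hyb : 0 < y ^ b := by positivity
    have hxa3 : x ^ a ≤ 1 / 3 := by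
      calc x ^ a ≤ x ^ 1 := pow_le_pow_of_le_one hx.le (by linarith) ha
        _ ≤ 1 / 3 := by simpa using hx3
    have hyb1 : y ^ b ≤ 1 := pow_le_one₀ hy.le (by linarith)
    refine ⟨x ^ a * y ^ b, by positivity, by nlinarith, ?_⟩
    have hg := Good.mul hyb.le (hgx.pow hx.le a ha) (hgy.pow hy.le b hb).ex
    refine hg.mono ?_
    intro F'
    by_cases hF' : F' = F
    · subst hF'
      simp only [hFS, if_false, if_true, Finset.mem_insert_self, one_pow, one_mul]
      calc (y ^ (3 * K)) ^ b = (y ^ b) ^ K * ((y ^ b) ^ 2) ^ K := by ring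
        _ ≤ (y ^ b) ^ K * (x ^ a) ^ K := by gcongr
        _ = (x ^ a * y ^ b) ^ K := by ring
    · by_cases hF'S : F' ∈ S
      · simp only [hF', hF'S, if_true, if_false, Finset.mem_insert, or_true, one_pow, mul_one]
        calc (x ^ (3 * K)) ^ a = (x ^ a) ^ K * ((x ^ a) ^ 2) ^ K := by ring
          _ ≤ (x ^ a) ^ K * (y ^ b) ^ K := by gcongr
          _ = (x ^ a * y ^ b) ^ K := by ring
      · simp [hF', hF'S]


/-! ### Removing isolated vertices -/

/-- the non-isolated vertices -/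
noncomputable def supp {h : ℕ} (F : SimpleGraph (Fin h)) : Finset (Fin h) := by
  classical exact Finset.univ.filter (fun a => ∃ b, F.Adj a b)

theorem mem_supp {h : ℕ} {F : SimpleGraph (Fin h)} {a : Fin h} :
    a ∈ supp F ↔ ∃ b, F.Adj a b := by
  classical simp [supp]

/-- the graph without its isolated vertices -/
noncomputable def core (F : Gr) : Gr :=
  ⟨(supp F.2).card, F.2.comap ((supp F.2).orderEmbOfFin rfl)⟩

theorem core_homs (F : Gr) {n : ℕ} (G : SimpleGraph (Fin n)) :
    (homs F.2 G).card = (homs (core F).2 G).card * n ^ (F.1 - (core F).1) := by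
  classical
  obtain ⟨h, F⟩ := F
  let S := supp F
  let e1 : {a // a ∈ S} ≃ Fin S.card := (S.orderIsoOfFin rfl).toEquiv.symm
  let e : (Fin h → Fin n) ≃ (Fin S.card → Fin n) × ({a // a ∉ S} → Fin n) :=
    (Equiv.piEquivPiSubtypeProd (fun a => a ∈ S) (fun _ => Fin n)).trans
      (Equiv.prodCongr (Equiv.arrowCongr e1 (Equiv.refl _)) (Equiv.refl _))
  have hcard : (homs F G).card = ((homs (core ⟨h, F⟩).2 G) ×ˢ
      (Finset.univ : Finset ({a // a ∉ S} → Fin n))).card := by
    refine Finset.card_equiv e ?_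
    intro f
    rw [mem_homs, Finset.mem_product, mem_homs]
    simp only [Finset.mem_univ, and_true]
    constructor
    · intro hf i j hij
      exact hf _ _ hij
    · intro hf a b hab
      have ha : a ∈ S := mem_supp.2 ⟨b, hab⟩
      have hb : b ∈ S := mem_supp.2 ⟨a, hab.symm⟩
      have ha' : a ∈ Set.range (S.orderEmbOfFin rfl) := by
        rw [Finset.range_orderEmbOfFin]; exact ha
      have hb' : b ∈ Set.range (S.orderEmbOfFin rfl) := by
        rw [Finset.range_orderEmbOfFin]; exact hb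
      obtain ⟨i, rfl⟩ := ha'
      obtain ⟨j, rfl⟩ := hb'
      exact hf i j hab
  rw [hcard, Finset.card_product]
  congr 1
  rw [Finset.card_univ, Fintype.card_fun, Fintype.card_fin]
  congr 1
  rw [Fintype.card_subtype_compl, Fintype.card_fin, Fintype.card_coe]
  rfl

theorem core_le (F : Gr) : (core F).1 ≤ F.1 := by
  have := Finset.card_le_univ (supp F.2)
  rw [Fintype.card_fin] at this
  exact this

/-- a triangle with `M - 3` isolated vertices -/
def tri (M : ℕ) : SimpleGraph (Fin M) where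
  Adj a b := a ≠ b ∧ a.val < 3 ∧ b.val < 3
  symm := ⟨fun _ _ h => ⟨h.1.symm, h.2.2, h.2.1⟩⟩
  loopless := ⟨fun _ h => h.1 rfl⟩

theorem ex_tri {M : ℕ} (hM : 3 ≤ M) :
    Ex (1 / (M:ℝ) ^ 2) (fun F => (3 / (M:ℝ)) ^ (core F).1) M (tri M) := by
  classical
  have hM0 : (0:ℝ) < M := by exact_mod_cast (by omega : 0 < M)
  constructor
  · let t : Finset (Fin M) := Finset.univ.image (Fin.castLE hM)
    have htc : t.card = 3 := by
      simp only [t]
      rw [Finset.card_image_of_injective _ (Fin.castLE_injective hM)]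
      simp
    refine ⟨{t}, ?_, ?_, ?_⟩
    · intro s hs
      rw [Finset.mem_singleton] at hs
      subst hs
      refine ⟨?_, htc⟩
      intro u hu v hv huv
      simp only [t, Finset.coe_image, Finset.coe_univ, Set.image_univ, Set.mem_range] at hu hv
      obtain ⟨i, rfl⟩ := hu
      obtain ⟨j, rfl⟩ := hv
      exact ⟨huv, by simp, by simp⟩
    · intro s hs r hr hsr
      rw [Finset.mem_singleton] at hs hr
      exact absurd (hs.trans hr.symm) hsr
    · rw [Finset.card_singleton]
      apply le_of_eq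
      field_simp
      simp
  · intro F
    rw [core_homs F]
    have h1 : (homs (core F).2 (tri M)).card ≤ 3 ^ (core F).1 := by
      let A : Finset (Fin M) := Finset.univ.image (Fin.castLE hM)
      have hA : A.card = 3 := by
        simp only [A]
        rw [Finset.card_image_of_injective _ (Fin.castLE_injective hM)]
        simp
      have : homs (core F).2 (tri M) ⊆ Fintype.piFinset (fun _ => A) := by
        intro f hf
        rw [mem_homs] at hf
        rw [Fintype.mem_piFinset]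
        intro i
        obtain ⟨b, hb⟩ := mem_supp.1 (Finset.orderEmbOfFin_mem (supp F.2) rfl i)
        have hb' : b ∈ Set.range ((supp F.2).orderEmbOfFin rfl) := by
          rw [Finset.range_orderEmbOfFin]; exact mem_supp.2 ⟨_, hb.symm⟩
        obtain ⟨j, rfl⟩ := hb'
        have h3 := (hf i j hb).2.1
        simp only [A, Finset.mem_image, Finset.mem_univ, true_and]
        exact ⟨⟨(f i).val, h3⟩, by ext; simp⟩
      refine (Finset.card_le_card this).trans ?_
      rw [Fintype.card_piFinset]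
      simp [hA]
    have h2 : ((homs (core F).2 (tri M)).card : ℝ) ≤ 3 ^ (core F).1 := by exact_mod_cast h1
    push_cast
    calc ((homs (core F).2 (tri M)).card : ℝ) * (M:ℝ) ^ (F.1 - (core F).1)
        ≤ 3 ^ (core F).1 * (M:ℝ) ^ (F.1 - (core F).1) := by gcongr
      _ = (3 / (M:ℝ)) ^ (core F).1 * (M:ℝ) ^ F.1 := by
          have : (M:ℝ) ^ F.1 = (M:ℝ) ^ (core F).1 * (M:ℝ) ^ (F.1 - (core F).1) := by
            rw [← pow_add, Nat.add_sub_cancel' (core_le F)]
          rw [this, div_pow]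
          field_simp

/-- A family of finite graphs (finite or infinite) is triangle-abundant if and only if some member
of the family is a triangle-abundant graph. -/
theorem result (𝓕 : Set (Σ h : ℕ, SimpleGraph (Fin h))) : FamilyAbundant 𝓕 ↔ ∃ F ∈ 𝓕, GraphAbundant F.2 := by
  classical
  constructor
  swap
  · rintro ⟨F, hF, C, hC, h⟩
    refine ⟨C, hC, fun ε hε hε1 => ?_⟩
    obtain ⟨n₀, hn₀⟩ := h ε hε hε1
    exact ⟨n₀, fun n hn G hG => ⟨F, hF, hn₀ n hn G (far_of_disjoint hG)⟩⟩
  intro hfam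
  by_contra hno
  push Not at hno
  obtain ⟨C, hC, hfam⟩ := hfam
  obtain ⟨K, hK⟩ := exists_nat_ge C
  -- the finitely many small cores
  let 𝒞 : Set Gr := {c | c.1 ≤ 5 * K ∧ ∃ F ∈ 𝓕, core F = c}
  have hfin : 𝒞.Finite := by
    have h1 : ({c : Gr | c.1 ≤ 5 * K}).Finite := by
      have : {c : Gr | c.1 ≤ 5 * K} ⊆
          ⋃ s ∈ Finset.range (5 * K + 1), Set.range (fun H : SimpleGraph (Fin s) => (⟨s, H⟩ : Gr)) := by
        rintro ⟨s, H⟩ hs
        simp only [Set.mem_iUnion, Finset.mem_range]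
        exact ⟨s, Nat.lt_succ_of_le hs, H, rfl⟩
      refine Set.Finite.subset ?_ this
      exact Set.Finite.biUnion (Finset.finite_toSet _) (fun s _ => Set.finite_range _)
    exact h1.subset (fun c hc => hc.1)
  have hrep : ∀ c : Gr, ∃ F : Gr, c ∈ 𝒞 → (F ∈ 𝓕 ∧ core F = c) := by
    intro c
    by_cases hc : c ∈ 𝒞
    · obtain ⟨-, F, hF, hcF⟩ := hc
      exact ⟨F, fun _ => ⟨hF, hcF⟩⟩
    · exact ⟨c, fun h => absurd h hc⟩
  choose rep hrep using hrep
  let S : Finset Gr := hfin.toFinset.image rep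
  have hS : ∀ F ∈ S, ¬ GraphAbundant F.2 := by
    intro F hF
    obtain ⟨c, hc, rfl⟩ := Finset.mem_image.1 hF
    exact hno _ (hrep c (hfin.mem_toFinset.1 hc)).1
  obtain ⟨x, hx, hx3, hg⟩ := good_finset S hS (10 * K + 1)
  set M : ℕ := ⌈9 / x⌉₊ with hMdef
  have hM1 : 9 / x ≤ M := Nat.le_ceil _
  have hM2 : (M:ℝ) < 9 / x + 1 := Nat.ceil_lt_add_one (by positivity)
  have hM1' : 9 ≤ M * x := by rwa [div_le_iff₀ hx] at hM1
  have hM2' : M * x ≤ 10 := by
    have : (M:ℝ) * x < (9 / x + 1) * x := by gcongr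
    have h2 : (9 / x + 1) * x = 9 + x := by field_simp
    linarith
  have hMpos : (0:ℝ) < M := by
    by_contra hcon
    push Not at hcon
    nlinarith
  have hM3 : 3 ≤ M := by
    have : (3:ℝ) ≤ M := by nlinarith
    exact_mod_cast this
  set ε : ℝ := x * (1 / (M:ℝ) ^ 2) with hε
  have hεpos : 0 < ε := by positivity
  have hMinv : x ^ 2 / 100 ≤ 1 / (M:ℝ) ^ 2 := by
    rw [div_le_div_iff₀ (by norm_num) (by positivity)]
    nlinarith [mul_nonneg hMpos.le hx.le]
  have hε3 : x ^ 3 / 100 ≤ ε := by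
    have : x * (x ^ 2 / 100) ≤ ε := by rw [hε]; gcongr
    linarith
  have hε1 : ε < 1 := by
    have h1 : 1 / (M:ℝ) ^ 2 ≤ 1 := by
      rw [div_le_one (by positivity)]
      have : (3:ℝ) ≤ M := by exact_mod_cast hM3
      nlinarith
    have : ε ≤ x * 1 := by rw [hε]; gcongr
    linarith
  have hx10 : x ^ 10 ≤ ε := by
    have h1 : x ^ 7 ≤ (1 / 3) ^ 7 := pow_le_pow_left₀ hx.le hx3 7
    have h2 : x ^ 10 = x ^ 3 * x ^ 7 := by ring
    have h3 : x ^ 3 * x ^ 7 ≤ x ^ 3 * (1 / 3) ^ 7 := by gcongr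
    have h4 : 0 < x ^ 3 := by positivity
    nlinarith
  have hx5 : (x / 3) ^ 5 ≤ ε := by
    have h1 : x ^ 2 ≤ 1 := by nlinarith
    have h4 : 0 < x ^ 3 := by positivity
    have h2 : (x / 3) ^ 5 = x ^ 3 * (x ^ 2 / 243) := by ring
    have h3 : x ^ 3 * (x ^ 2 / 243) ≤ x ^ 3 * (1 / 100) := by
      apply mul_le_mul_of_nonneg_left _ h4.le
      linarith
    linarith
  have hεK : ε ^ K ≤ ε ^ C := by
    rw [← Real.rpow_natCast]
    exact Real.rpow_le_rpow_of_exponent_ge hεpos hε1.le hK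
  have hgood := Good.mul (by positivity) hg ⟨M, by omega, _, ex_tri hM3⟩
  obtain ⟨n₀, hn₀⟩ := hfam ε hεpos hε1
  obtain ⟨n, hn, G, hG⟩ := hgood (n₀ + 1)
  have hnpos : (0:ℝ) < n := by exact_mod_cast (by omega : 0 < n)
  obtain ⟨F, hF, hcopy⟩ := hn₀ n (by omega) G hG.1
  have hhom : ε ^ C * (n:ℝ) ^ F.1 ≤ ((homs F.2 G).card : ℝ) :=
    hcopy.trans (by exact_mod_cast copy_le_homs F.2 G)
  have h3M : 3 / (M:ℝ) ≤ x / 3 := by
    rw [div_le_div_iff₀ hMpos (by norm_num)]
    linarith
  have h3M0 : 0 ≤ 3 / (M:ℝ) := by positivity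
  have hnF : (0:ℝ) < (n:ℝ) ^ F.1 := by positivity
  rcases le_or_gt (core F).1 (5 * K) with hsmall | hlarge
  · -- small core
    have hc : core F ∈ 𝒞 := ⟨hsmall, F, hF, rfl⟩
    obtain ⟨hF'1, hF'2⟩ := hrep _ hc
    set F' := rep (core F) with hF'
    have hF'S : F' ∈ S := Finset.mem_image.2 ⟨core F, hfin.mem_toFinset.2 hc, rfl⟩
    have h1 := hG.2 F'
    simp only [hF'S, if_true] at h1
    have h2 : ((homs F'.2 G).card : ℝ) ≤ x ^ (10 * K + 1) * (n:ℝ) ^ F'.1 := by
      refine h1.trans ?_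
      have h3 : (3 / (M:ℝ)) ^ (core F').1 ≤ 1 := pow_le_one₀ h3M0 (by linarith)
      have h4 : x ^ (10 * K + 1) * (3 / (M:ℝ)) ^ (core F').1 ≤ x ^ (10 * K + 1) * 1 := by
        gcongr
      rw [mul_one] at h4
      gcongr
    rw [core_homs F', hF'2] at h2
    have hle' : (core F).1 ≤ F'.1 := by
      have := core_le F'
      rwa [hF'2] at this
    have h5 : (n:ℝ) ^ F'.1 = (n:ℝ) ^ (core F).1 * (n:ℝ) ^ (F'.1 - (core F).1) := by
      rw [← pow_add, Nat.add_sub_cancel' hle']
    have h6 : ((homs (core F).2 G).card : ℝ) ≤ x ^ (10 * K + 1) * (n:ℝ) ^ (core F).1 := by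
      push_cast at h2
      rw [h5, ← mul_assoc] at h2
      exact le_of_mul_le_mul_right h2 (by positivity)
    rw [core_homs F] at hhom
    push_cast at hhom
    have h7 : (n:ℝ) ^ F.1 = (n:ℝ) ^ (core F).1 * (n:ℝ) ^ (F.1 - (core F).1) := by
      rw [← pow_add, Nat.add_sub_cancel' (core_le F)]
    have h8 : ((homs (core F).2 G).card : ℝ) * (n:ℝ) ^ (F.1 - (core F).1) ≤
        x ^ (10 * K + 1) * (n:ℝ) ^ F.1 := by
      rw [h7, ← mul_assoc]
      gcongr
    have h9 : ε ^ C ≤ x ^ (10 * K + 1) :=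
      le_of_mul_le_mul_right (hhom.trans h8) hnF
    have h10 : x ^ (10 * K) ≤ ε ^ K := by
      rw [pow_mul]
      exact pow_le_pow_left₀ (by positivity) hx10 K
    have h11 : x ^ (10 * K + 1) < x ^ (10 * K) :=
      pow_lt_pow_right_of_lt_one₀ hx (by linarith) (by omega)
    linarith
  · -- large core
    have h1 := hG.2 F
    have h2 : (if F ∈ S then x ^ (10 * K + 1) else 1) ≤ (1:ℝ) := by
      split_ifs
      · exact pow_le_one₀ hx.le (by linarith)
      · exact le_rfl
    have h3 : (3 / (M:ℝ)) ^ (core F).1 ≤ (x / 3) ^ (5 * K + 1) := by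
      calc (3 / (M:ℝ)) ^ (core F).1 ≤ (x / 3) ^ (core F).1 := by gcongr
        _ ≤ (x / 3) ^ (5 * K + 1) :=
          pow_le_pow_of_le_one (by positivity) (by linarith) hlarge
    have h4 : (if F ∈ S then x ^ (10 * K + 1) else 1) * (3 / (M:ℝ)) ^ (core F).1 ≤
        (x / 3) ^ (5 * K + 1) := by
      calc (if F ∈ S then x ^ (10 * K + 1) else 1) * (3 / (M:ℝ)) ^ (core F).1
          ≤ 1 * (x / 3) ^ (5 * K + 1) := mul_le_mul h2 h3 (by positivity) (by norm_num)
        _ = (x / 3) ^ (5 * K + 1) := one_mul _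
    have h5 : ε ^ C * (n:ℝ) ^ F.1 ≤ (x / 3) ^ (5 * K + 1) * (n:ℝ) ^ F.1 := by
      refine hhom.trans (h1.trans ?_)
      gcongr
    have h9 : ε ^ C ≤ (x / 3) ^ (5 * K + 1) := le_of_mul_le_mul_right h5 hnF
    have h10 : (x / 3) ^ (5 * K) ≤ ε ^ K := by
      rw [pow_mul]
      exact pow_le_pow_left₀ (by positivity) hx5 K
    have h11 : (x / 3) ^ (5 * K + 1) < (x / 3) ^ (5 * K) :=
      pow_lt_pow_right_of_lt_one₀ (by positivity) (by linarith) (by omega)
    linarith

end Pool.Agent.Results.MP_02fb88_co.FamilyTheorem
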